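import Pool.Agent.helper89.PU.Spec1

/-!
# Project PU (MP_2e0e07_nt), row COM: commutators
-/

set_option autoImplicit false

namespace Pool.Agent.PV

open Matrix Polynomial Pool.Agent.GO Pool.Agent.AR Pool.Agent.RG Pool.Agent.HZ Pool.Agent.DS
  Pool.Agent.AX Pool.Agent.UM Pool.Agent.PU MeasureTheory NumberField

section

variable {F : Type*} [NormedField F]

theorem COM_d3 (A B C : Matrix (Fin 2) (Fin 2) F) : d3 A B C =
    A 0 1 * (B 1 0 * (C 0 0 - C 1 1) - (B 0 0 - B 1 1) * C 1 0) -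
      A 1 0 * (B 0 1 * (C 0 0 - C 1 1) - (B 0 0 - B 1 1) * C 0 1) +
      (A 0 0 - A 1 1) * (B 0 1 * C 1 0 - B 1 0 * C 0 1) := by
  simp [d3, Matrix.det_fin_three]
  ring

theorem COM_01 (X Y : Matrix (Fin 2) (Fin 2) F) :
    (X * Y - Y * X) 0 1 = (X 0 0 - X 1 1) * Y 0 1 - X 0 1 * (Y 0 0 - Y 1 1) := by
  simp only [Matrix.sub_apply, Matrix.mul_apply, Fin.sum_univ_two]
  ring

theorem COM_10 (X Y : Matrix (Fin 2) (Fin 2) F) :
    (X * Y - Y * X) 1 0 = X 1 0 * (Y 0 0 - Y 1 1) - (X 0 0 - X 1 1) * Y 1 0 := by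
  simp only [Matrix.sub_apply, Matrix.mul_apply, Fin.sum_univ_two]
  ring

variable [IsUltrametricDist F]

/-- three products -/
theorem COM_three {a b c x y z : F} {m M : ℝ} (ha : ‖a‖ ≤ m) (hb : ‖b‖ ≤ m) (hc : ‖c‖ ≤ m)
    (hx : ‖x‖ ≤ M) (hy : ‖y‖ ≤ M) (hz : ‖z‖ ≤ M) : ‖a * x - b * y + c * z‖ ≤ m * M :=
  nadd (nsub (nmul ha hx) (nmul hb hy)) (nmul hc hz)

theorem COM_cramer (X A B C : Matrix (Fin 2) (Fin 2) F) {μ M : ℝ} (hA : nu A ≤ μ) (hB : nu B ≤ μ)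
    (hC : nu C ≤ μ) (pA : ‖(X * A - A * X) 0 1‖ ≤ M) (pB : ‖(X * B - B * X) 0 1‖ ≤ M)
    (pC : ‖(X * C - C * X) 0 1‖ ≤ M) (qA : ‖(X * A - A * X) 1 0‖ ≤ M)
    (qB : ‖(X * B - B * X) 1 0‖ ≤ M) (qC : ‖(X * C - C * X) 1 0‖ ≤ M) :
    ‖d3 A B C‖ * nu X ≤ μ * μ * M := by
  have a1 := (norm01_le A).trans hA
  have a2 := (norm10_le A).trans hA
  have a3 := (normd_le A).trans hA
  have b1 := (norm01_le B).trans hB
  have b2 := (norm10_le B).trans hB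
  have b3 := (normd_le B).trans hB
  have c1 := (norm01_le C).trans hC
  have c2 := (norm10_le C).trans hC
  have c3 := (normd_le C).trans hC
  rw [COM_01] at pA pB pC
  rw [COM_10] at qA qB qC
  rcases nu_cases X with h | h | h
  · rw [h, ← norm_mul]
    have e : d3 A B C * X 0 1 = -((B 0 1 * C 1 0 - B 1 0 * C 0 1) *
        ((X 0 0 - X 1 1) * A 0 1 - X 0 1 * (A 0 0 - A 1 1)) -
        (A 0 1 * C 1 0 - A 1 0 * C 0 1) * ((X 0 0 - X 1 1) * B 0 1 - X 0 1 * (B 0 0 - B 1 1)) +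
        (A 0 1 * B 1 0 - A 1 0 * B 0 1) * ((X 0 0 - X 1 1) * C 0 1 - X 0 1 * (C 0 0 - C 1 1))) := by
      rw [COM_d3]
      ring
    rw [e, norm_neg]
    exact COM_three (nsub (nmul b1 c2) (nmul b2 c1)) (nsub (nmul a1 c2) (nmul a2 c1))
      (nsub (nmul a1 b2) (nmul a2 b1)) pA pB pC
  · rw [h, ← norm_mul]
    have e : d3 A B C * X 1 0 = (B 0 1 * C 1 0 - B 1 0 * C 0 1) *
        (X 1 0 * (A 0 0 - A 1 1) - (X 0 0 - X 1 1) * A 1 0) -
        (A 0 1 * C 1 0 - A 1 0 * C 0 1) * (X 1 0 * (B 0 0 - B 1 1) - (X 0 0 - X 1 1) * B 1 0) +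
        (A 0 1 * B 1 0 - A 1 0 * B 0 1) * (X 1 0 * (C 0 0 - C 1 1) - (X 0 0 - X 1 1) * C 1 0) := by
      rw [COM_d3]
      ring
    rw [e]
    exact COM_three (nsub (nmul b1 c2) (nmul b2 c1)) (nsub (nmul a1 c2) (nmul a2 c1))
      (nsub (nmul a1 b2) (nmul a2 b1)) qA qB qC
  · rw [h, ← norm_mul]
    have e : d3 A B C * (X 0 0 - X 1 1) = (B 1 0 * (C 0 0 - C 1 1) - (B 0 0 - B 1 1) * C 1 0) *
        ((X 0 0 - X 1 1) * A 0 1 - X 0 1 * (A 0 0 - A 1 1)) -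
        (A 1 0 * (C 0 0 - C 1 1) - (A 0 0 - A 1 1) * C 1 0) *
          ((X 0 0 - X 1 1) * B 0 1 - X 0 1 * (B 0 0 - B 1 1)) +
        (A 1 0 * (B 0 0 - B 1 1) - (A 0 0 - A 1 1) * B 1 0) *
          ((X 0 0 - X 1 1) * C 0 1 - X 0 1 * (C 0 0 - C 1 1)) := by
      rw [COM_d3]
      ring
    rw [e]
    exact COM_three (nsub (nmul b2 c3) (nmul b3 c2)) (nsub (nmul a2 c3) (nmul a3 c2))
      (nsub (nmul a2 b3) (nmul a3 b2)) pA pB pC

/-- the entries of a commutator -/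
theorem COM_entry (X Y : Matrix (Fin 2) (Fin 2) F) (i j : Fin 2) :
    ‖(X * Y - Y * X) i j‖ ≤ nu X * nu Y := by
  have h : X * Y - Y * X = (X - X 1 1 • (1 : Matrix (Fin 2) (Fin 2) F)) * (Y - Y 1 1 • 1) -
      (Y - Y 1 1 • 1) * (X - X 1 1 • 1) := by
    simp only [Matrix.sub_mul, Matrix.mul_sub, Matrix.smul_mul, Matrix.mul_smul, Matrix.one_mul,
      Matrix.mul_one]
    module
  rw [h, Matrix.sub_apply]
  refine nsub (entry_mul_le (entry_sub_le X) (entry_sub_le Y) i j) ?_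
  rw [mul_comm (nu X)]
  exact entry_mul_le (entry_sub_le Y) (entry_sub_le X) i j

theorem COM_two : ‖(2 : F)‖ ≤ 1 := by
  have h : (2 : F) = 1 + 1 := by norm_num
  rw [h]
  exact nadd norm_one.le norm_one.le

end

theorem COM : COM_stmt := by
  intro Γ K _ _ _ _ R G₁ κ hL x hx y hy
  obtain ⟨ν, hν⟩ : ∃ ν, ν = nu (R x) := ⟨_, rfl⟩
  obtain ⟨μ, hμ⟩ : ∃ μ, μ = nu (R y) := ⟨_, rfl⟩
  have hν0 : 0 ≤ ν := by rw [hν]; exact nu_nonneg _
  have hμ0 : 0 ≤ μ := by rw [hμ]; exact nu_nonneg _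
  rw [← hν, ← hμ]
  rcases hν0.eq_or_lt with h0 | hνp
  · refine ⟨1, ?_⟩
    rw [← h0, mul_zero, zero_mul]
    exact nu_nonneg _
  rcases hμ0.eq_or_lt with h0 | hμp
  · refine ⟨1, ?_⟩
    rw [← h0, mul_zero]
    exact nu_nonneg _
  obtain ⟨a, b, c, hd⟩ := hL.spn y hy
  rw [← hμ] at hd
  have hconj : ∀ g : Γ, nu (R (g * y * g⁻¹)) = μ := fun g => by rw [nu_rep_conj hL.int, hμ]
  -- one of the three commutators is large
  obtain ⟨g, hg⟩ : ∃ g : Γ, κ * μ * ν ≤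
      nu (R x * R (g * y * g⁻¹) - R (g * y * g⁻¹) * R x) := by
    by_contra hno
    push Not at hno
    obtain ⟨M, hM⟩ : ∃ M, M = max (nu (R x * R (a * y * a⁻¹) - R (a * y * a⁻¹) * R x))
      (max (nu (R x * R (b * y * b⁻¹) - R (b * y * b⁻¹) * R x))
        (nu (R x * R (c * y * c⁻¹) - R (c * y * c⁻¹) * R x))) := ⟨_, rfl⟩
    have hMlt : M < κ * μ * ν := by
      rw [hM]
      exact max_lt (hno a) (max_lt (hno b) (hno c))
    have ma : nu (R x * R (a * y * a⁻¹) - R (a * y * a⁻¹) * R x) ≤ M := by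
      rw [hM]; exact le_max_left _ _
    have mb : nu (R x * R (b * y * b⁻¹) - R (b * y * b⁻¹) * R x) ≤ M := by
      rw [hM]; exact (le_max_left _ _).trans (le_max_right _ _)
    have mc : nu (R x * R (c * y * c⁻¹) - R (c * y * c⁻¹) * R x) ≤ M := by
      rw [hM]; exact (le_max_right _ _).trans (le_max_right _ _)
    have h1 := COM_cramer (R x) (R (a * y * a⁻¹)) (R (b * y * b⁻¹)) (R (c * y * c⁻¹))
      (hconj a).le (hconj b).le (hconj c).le ((norm01_le _).trans ma) ((norm01_le _).trans mb)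
      ((norm01_le _).trans mc) ((norm10_le _).trans ma) ((norm10_le _).trans mb)
      ((norm10_le _).trans mc)
    rw [← hν] at h1
    have h2 : κ * μ ^ 3 * ν ≤ μ * μ * M := (mul_le_mul_of_nonneg_right hd hν0).trans h1
    have h3 : μ * μ * M < μ * μ * (κ * μ * ν) :=
      mul_lt_mul_of_pos_left hMlt (mul_pos hμp hμp)
    have h4 : κ * μ ^ 3 * ν = μ * μ * (κ * μ * ν) := by ring
    linarith
  refine ⟨g, ?_⟩
  obtain ⟨Y, hY⟩ : ∃ Y, Y = g * y * g⁻¹ := ⟨_, rfl⟩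
  rw [← hY] at hg
  have hYn : nu (R Y) = μ := by rw [hY]; exact hconj g
  rw [← hY]
  obtain ⟨Z, hZ⟩ : ∃ Z, Z = R (x⁻¹ * Y⁻¹) := ⟨_, rfl⟩
  obtain ⟨C, hC⟩ : ∃ C, C = R x * R Y - R Y * R x := ⟨_, rfl⟩
  rw [← hC] at hg
  have hcomm : R (x * Y * x⁻¹ * Y⁻¹) = C * Z + (1 : K) • 1 := by
    rw [hC, hZ, map_mul, map_mul, map_mul, map_mul, Matrix.sub_mul, one_smul]
    have e1 : R Y * R x * (R x⁻¹ * R Y⁻¹) = 1 := by
      rw [← map_mul, ← map_mul, ← map_mul]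
      have e2 : Y * x * (x⁻¹ * Y⁻¹) = 1 := by group
      rw [e2, map_one]
    rw [e1, sub_add_cancel]
    simp only [Matrix.mul_assoc]
  rw [hcomm, nu_add_scalar]
  have hxs := hL.small x hx
  have hys := hL.small y hy
  rw [← hν] at hxs
  rw [← hμ] at hys
  have h2le : ‖(2 : K)‖ ≤ 1 := COM_two
  have hκ2 : κ * ‖(2 : K)‖ ≤ κ := mul_le_of_le_one_right hL.pos.le h2le
  have hmax : max ν μ < κ * ‖(2 : K)‖ := max_lt hxs hys
  have hZn : nu Z ≤ max ν μ := by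
    rw [hZ]
    refine (nu_rep_mul hL.int _ _).trans ?_
    rw [nu_rep_inv hL.int, nu_rep_inv hL.int, ← hν, hYn]
  have hZ1 : nu Z < 1 := hZn.trans_lt (hmax.trans_le (hκ2.trans hL.le))
  have hz : ‖Z 1 1‖ = 1 := by
    rw [hZ] at hZ1 ⊢
    exact diag_unit (hL.int _) (det_unit hL.int _) hZ1
  have hCe : ∀ i j, ‖C i j‖ ≤ ν * μ := by
    intro i j
    rw [hC, hν, ← hYn]
    exact COM_entry _ _ i j
  have hEe : ∀ i j, ‖(Z - Z 1 1 • (1 : Matrix (Fin 2) (Fin 2) K)) i j‖ ≤ max ν μ := fun i j =>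
    (entry_sub_le Z i j).trans hZn
  have hCE : nu (C * (Z - Z 1 1 • (1 : Matrix (Fin 2) (Fin 2) K))) ≤ ν * μ * max ν μ :=
    nu_le_of_entry fun i j => entry_mul_le hCe hEe i j
  have hlt : nu (C * (Z - Z 1 1 • (1 : Matrix (Fin 2) (Fin 2) K))) < nu C := by
    refine hCE.trans_lt ?_
    have h1 : ν * μ * max ν μ < ν * μ * κ :=
      mul_lt_mul_of_pos_left (hmax.trans_le hκ2) (mul_pos hνp hμp)
    have h2 : ν * μ * κ = κ * μ * ν := by ring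
    linarith
  have hsplit : (Z 1 1) • C = C * Z + (-1 : K) • (C * (Z - Z 1 1 • (1 : Matrix (Fin 2) (Fin 2) K))) := by
    rw [Matrix.mul_sub, Matrix.mul_smul, Matrix.mul_one]
    module
  have h5 : nu ((Z 1 1) • C) = nu C := by rw [nu_smul, hz, one_mul]
  have h6 : nu C ≤ max (nu (C * Z)) (nu (C * (Z - Z 1 1 • (1 : Matrix (Fin 2) (Fin 2) K)))) := by
    rw [← h5, hsplit]
    refine (nu_add_le _ _).trans ?_
    rw [nu_smul, norm_neg, norm_one, one_mul]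
  have h7 : nu C ≤ nu (C * Z) := by
    rcases le_max_iff.1 h6 with h | h
    · exact h
    · exact absurd h (not_le.2 hlt)
  refine le_trans ?_ (hg.trans h7)
  have h8 : κ * ‖(2 : K)‖ * ν * μ ≤ κ * ν * μ := by
    gcongr
  have h9 : κ * ν * μ = κ * μ * ν := by ring
  linarith

end Pool.Agent.PV
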